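import Pool.Agent.Q69.OD.Ratio

/-!
# The product of Birch and Swinnerton-Dyer is a likelihood ratio

Let `K` be a number field with the ring of integers `𝓞`, `g ≥ 1` and `0 ≤ r ≤ g`. The family `F_r` consists of the curves of
genus `g`
`C_t : y ^ 2 = f_t(x) = (x - a_1) ⋯ (x - a_r) h(x) + l(x) ^ 2`,
with a monic polynomial `h` of degree `2 g + 1 - r` and a polynomial `l` of degree `< r` over `𝓞`: the curves `y ^ 2 = f(x)`, `f` monic
of degree `2 g + 1`, with `r` marked points `(a_i, l(a_i))`, so that almost all of their Jacobians have rank at least `r` over `K`. For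
`g = 1` these are the elliptic curves `y ^ 2 = x ^ 3 + a x ^ 2 + b x + c` (`r = 0`) and those with a marked point (`r = 1`). Let
`P_t(x) = ∏_{N v ≤ x} #J_t(k_v) / (N v) ^ g` be the product of Birch and Swinnerton-Dyer, `∏_{p ≤ x} N_p / p` for an elliptic
curve over `ℚ`.

The conjecture that `P_t(x)` grows like a constant times `(log x) ^ rank` was found by computing these products. Here it is explained
exactly what they measure: let `r < r' ≤ g`, `k = r' - r`, and let a member of `F_{r'}` be given. The number of the members of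
`F_{r'}` with the same reductions modulo all primes of norm at most `x`, divided by the number of such members of `F_r` (both
normalised by the sizes of the families), that is the likelihood ratio of the hypotheses `r'` marked points and `r` marked points if
everything that can be seen modulo these primes is known, is
`P_t(x) ^ k / (log x) ^ (k (r + r' + 1) / 2)`
up to a factor which is bounded in probability: for every `s` the factor is between `1 / M` and `M` for all members except for a
proportion `C_s M ^ (-s)`, with `C_s` independent of `x`, `M ≥ 1`, the boxes for the parameters (with sides at least `exp (2 x)`)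
and the integral basis. The exponent `(r + r' + 1) / 2 = r + 1 / 2 + k / 2` is the point of indifference: half way between the
typical exponents `r + 1 / 2` and `r' + 1 / 2` of the products in the two families.

Proof. The parameters of a box with sides at least `exp (2 x)` are equidistributed modulo the product of the primes `p ≤ x`, which is
at most `4 ^ x`. The number of the members of `F_r` over a finite field with `q` elements with a given `f` is
`N ^ r + O (q ^ (r - 1))`, `N` the number of the affine points of `y ^ 2 = f(x)`, for every monic `f` of degree `2 g + 1`, because the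
polynomials `l` for which `f - l ^ 2` has a multiple root are rare: `f' ^ 2 - 4 f l' ^ 2` does not vanish. So the local likelihood
ratio is `(N / q) ^ k (1 + O(1 / q)) = P_v ^ k (1 + O (1 / q))` at the primes of good reduction. As its inverse has mean exactly one
in the family `F_{r'}`, the mean of the logarithm of the correction is determined by the second moment of the local values, up to
`O (q ^ (-3 / 2))`: it is `-(k (r + r' + 1) / 2) / q`. The sum of the corrections is concentrated around its mean, with exponential
moments of every order.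
-/

set_option autoImplicit false

namespace Pool.Agent.Results.MP_ad1693_nt.LikelihoodRatio

open Finset NumberField Polynomial
open Q282.JK

/-- The box of the integers `n k` with `N k ≤ n k < N k + L k` for all `k`. -/
noncomputable def box {κ : Type} [Fintype κ] [DecidableEq κ] (N : κ → ℤ) (L : κ → ℕ) : Finset (κ → ℤ) :=
  Fintype.piFinset fun k => Ico (N k) (N k + L k)

/-- The elements `t i = ∑ n (i, j) b j` with the coordinates `n (i, j)`. -/
def combine {O : Type} [CommRing O] {ι : Type} {d : ℕ} (b : Fin d → O) (n : ι × Fin d → ℤ) : ι → O :=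
  fun i => ∑ j, (n (i, j) : O) * b j

open Classical in
/-- The proportion of the `n` of the box with the property `P`. -/
noncomputable def proportion {κ : Type} [Fintype κ] [DecidableEq κ] (N : κ → ℤ) (L : κ → ℕ) (P : (κ → ℤ) → Prop) : ℝ :=
  (((box N L).filter P).card : ℝ) / ∏ k, (L k : ℝ)

/-- The polynomials `f` and `f'` have the same reductions modulo all primes of norm at most `x`. -/
def SameReductions {K : Type} [Field K] [NumberField K] (x : ℕ) (f f' : (𝓞 K)[X]) : Prop :=
  ∀ v : IsDedekindDomain.HeightOneSpectrum (𝓞 K), Ideal.absNorm v.asIdeal ≤ x → f.map (red v) = f'.map (red v)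

/-- The likelihood ratio at `f`: the proportion of the members of the box `N', L'` of the second family with the same reductions as
`f` modulo all primes of norm at most `x`, divided by the proportion of the members of the box `N, L` of the first family with the
same reductions as `f`. The families have `r'` and `r` marked points. -/
noncomputable def ratio {K : Type} [Field K] [NumberField K] {r m r' m' d : ℕ} (x : ℕ) (b : Fin d → 𝓞 K)
    (N : Idx r m × Fin d → ℤ) (L : Idx r m × Fin d → ℕ) (N' : Idx r' m' × Fin d → ℤ) (L' : Idx r' m' × Fin d → ℕ) (f : (𝓞 K)[X]) : ℝ :=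
  proportion N' L' (fun n => SameReductions x (fpol (combine b n)) f) / proportion N L (fun n => SameReductions x (fpol (combine b n)) f)

/-- Let `K` be a number field, `g ≥ 1`, `0 ≤ r < r' ≤ g` and `s ≥ 0`. There are `C ≥ 0` and `X₁` with the following property. Let
`x ≥ X₁`, let `b` be a basis of the ring of integers of `K` over `ℤ`, and let a box `N, L` of coordinates of the parameters of the
family with `r` marked points and a box `N', L'` for the family with `r'` marked points be given, all sides of both at least
`exp (2 x)`. For `n` in the second box let `f_n = fpol t = (x - a_1) ⋯ (x - a_{r'}) h(x) + l(x) ^ 2`, of degree `2 g + 1`, be the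
polynomial with the parameters `t i = ∑ n (i, j) b j`, and let `P_n = product f_n x` be the product of the
`P_v(1 / N v) = #J(k_v) / (N v) ^ g` over the primes `v` of `K` of norm at most `x` with `Good f_n v`, `J` the Jacobian of
`y ^ 2 = f_n(x)`. Then there are members of the first box with the same reductions as `f_n` modulo all primes of norm at most `x`,
and for every `M ≥ 1` the inequalities
`M⁻¹ P_n ^ (r' - r) / (log x) ^ ((r' - r) (r + r' + 1) / 2) ≤ ratio ≤ M P_n ^ (r' - r) / (log x) ^ ((r' - r) (r + r' + 1) / 2)`
hold for the likelihood ratio at `f_n`, for all `n` in the second box except for a proportion of at most `C M ^ (-s)`. -/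
theorem result (K : Type) [Field K] [NumberField K] (g r r' : ℕ) (hg : 1 ≤ g) (hrr : r < r') (hr' : r' ≤ g) (s : ℝ) (hs : 0 ≤ s) :
    ∃ C : ℝ, 0 ≤ C ∧ ∃ X₁ : ℕ, ∀ x : ℕ, X₁ ≤ x → ∀ (b : Module.Basis (Fin (Module.finrank ℚ K)) ℤ (𝓞 K))
    (N : Idx r (2 * g + 1 - r) × Fin (Module.finrank ℚ K) → ℤ) (L : Idx r (2 * g + 1 - r) × Fin (Module.finrank ℚ K) → ℕ),
    (∀ k, Real.exp (2 * x) ≤ L k) →
    ∀ (N' : Idx r' (2 * g + 1 - r') × Fin (Module.finrank ℚ K) → ℤ) (L' : Idx r' (2 * g + 1 - r') × Fin (Module.finrank ℚ K) → ℕ),
    (∀ k, Real.exp (2 * x) ≤ L' k) →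
      (∀ n : Idx r' (2 * g + 1 - r') × Fin (Module.finrank ℚ K) → ℤ,
        0 < proportion N L (fun n' => SameReductions x (fpol (combine b n')) (fpol (combine b n)))) ∧
      ∀ M : ℝ, 1 ≤ M →
        proportion N' L' (fun n => ¬
          (M⁻¹ * (product (fpol (combine b n)) x ^ (r' - r) / (Real.log x) ^ (((r' : ℝ) - r) * (r + r' + 1) / 2)) ≤
              ratio x b N L N' L' (fpol (combine b n)) ∧
            ratio x b N L N' L' (fpol (combine b n)) ≤
              M * (product (fpol (combine b n)) x ^ (r' - r) / (Real.log x) ^ (((r' : ℝ) - r) * (r + r' + 1) / 2)))) ≤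
          C * M ^ (-s) := by
  classical
  have hrm' : r' + (2 * g + 1 - r') = 2 * g + 1 := by omega
  obtain ⟨C, hC, Xa, hXa, ha⟩ := Q69.OD.ratio_K K g r r' hg hrr.le hr' s hs
  refine ⟨C, hC, Xa, ?_⟩
  intro x hx b N L hL N' L' hL'
  have hX16 : 16 ≤ x := hXa.trans hx
  have hX0 : (16 : ℝ) ≤ x := by exact_mod_cast hX16
  have hlogX : 1 < Real.log x := by
    rw [Real.lt_log_iff_exp_lt (by linarith)]
    linarith [Real.exp_one_lt_three]
  have hlog0 : 0 < Real.log x := by linarith
  have hb : ∀ z : 𝓞 K, ∃ a : Fin (Module.finrank ℚ K) → ℤ, z = ∑ j, (a j : 𝓞 K) * b j := by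
    intro z
    refine ⟨fun j => b.repr z j, ?_⟩
    have h1 := b.sum_repr z
    rw [← h1]
    refine sum_congr rfl fun j _ => ?_
    rw [h1, zsmul_eq_mul]
  have hsame : ∀ f f' : (𝓞 K)[X], SameReductions x f f' ↔ ∀ v ∈ Q282.GK.SX K x, f.map (red v) = f'.map (red v) := fun f f' =>
    ⟨fun h v hv => h v (Q282.GK.mem_SX.1 hv), fun h v hv => h v (Q282.GK.mem_SX.2 hv)⟩
  have hT0 : 0 < Real.exp (2 * x) := Real.exp_pos _
  have hP0' : 0 < ∏ k, (L' k : ℝ) := prod_pos fun k _ => hT0.trans_le (hL' k)
  obtain ⟨A, hA⟩ : ∃ A : (Idx r' (2 * g + 1 - r') × Fin (Module.finrank ℚ K) → ℤ) → ℝ, ∀ n, A n =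
    proportion N' L' (fun n' => SameReductions x (fpol (combine b n')) (fpol (combine b n))) := ⟨_, fun _ => rfl⟩
  obtain ⟨B, hB⟩ : ∃ B : (Idx r' (2 * g + 1 - r') × Fin (Module.finrank ℚ K) → ℤ) → ℝ, ∀ n, B n =
    proportion N L (fun n' => SameReductions x (fpol (combine b n')) (fpol (combine b n))) := ⟨_, fun _ => rfl⟩
  obtain ⟨h1, h2⟩ := ha x hx (Real.exp (2 * x)) le_rfl (fun j => b j) (fun j => b j) hb hb N L hL N' L' hL' A B (fun n => by
      rw [hA]
      unfold proportion
      congr 2
      refine congrArg Finset.card (filter_congr fun n' _ => ?_)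
      rw [hsame]
      rfl) (fun n => by
      rw [hB]
      unfold proportion
      congr 2
      refine congrArg Finset.card (filter_congr fun n' _ => ?_)
      rw [hsame]
      rfl)
  refine ⟨fun n => by rw [← hB]; exact (h1 n).2, fun M hM => ?_⟩
  have hM0 : 0 < M := by linarith
  have h3 := h2 (Real.log M)
  have hCM : C * Real.exp (-(s * Real.log M)) = C * M ^ (-s) := by
    rw [Real.rpow_def_of_pos hM0]
    congr 2
    ring
  rw [hCM] at h3
  have hprop : ∀ {κ : Type} [Fintype κ] [DecidableEq κ] (N : κ → ℤ) (L : κ → ℕ) (P Q : (κ → ℤ) → Prop) [DecidablePred Q] (c : ℝ),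
      (0 < ∏ k, (L k : ℝ)) → (∀ n, P n → Q n) → (((Q282.GK.kbox N L).filter Q).card : ℝ) ≤ c * ∏ k, (L k : ℝ) → proportion N L P ≤ c := by
    intro κ _ _ N L P Q _ c hP hPQ h
    unfold proportion
    rw [div_le_iff₀ hP]
    refine le_trans (Nat.cast_le.2 (card_le_card fun n hn => ?_)) h
    rw [mem_filter] at hn ⊢
    exact ⟨hn.1, hPQ n hn.2⟩
  refine hprop N' L' _ _ _ hP0' (fun n hn => ?_) h3
  by_contra hcon
  rw [not_le, abs_lt] at hcon
  refine hn ?_
  obtain ⟨P, hPe⟩ : ∃ P : ℝ, P = product (fpol (Q282.GK.comb (fun j => b j) n)) x := ⟨_, rfl⟩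
  have hPpos : 0 < P := by
    rw [hPe]
    exact (log_product (fpol (Q282.GK.comb (fun j => b j) n)) (fpol_monic (by omega) _) g
      (by rw [fpol_natDegree (by omega : r' ≤ 2 * g + 1 - r'), hrm']) x).1
  have hPe' : product (fpol (combine b n)) x = P := hPe.symm
  have hrat : ratio x b N L N' L' (fpol (combine b n)) = A n / B n := by
    rw [hA, hB]
    rfl
  rw [← hPe] at hcon
  rw [hPe', hrat]
  obtain ⟨a, hae⟩ : ∃ a : ℝ, a = ((r' : ℝ) - r) * (r + r' + 1) / 2 := ⟨_, rfl⟩
  rw [← hae] at hcon ⊢
  have hk : ((r' - r : ℕ) : ℝ) = (r' : ℝ) - r := Nat.cast_sub hrr.le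
  have hZ : P ^ (r' - r) / (Real.log x) ^ a = Real.exp (((r' : ℝ) - r) * Real.log P - a * Real.log (Real.log x)) := by
    rw [Real.exp_sub, ← hk, Real.exp_nat_mul, Real.exp_log hPpos, Real.rpow_def_of_pos hlog0, mul_comm a]
  have hAB : 0 < A n / B n := div_pos (h1 n).1 (h1 n).2
  rw [hZ]
  constructor
  · have h5 : M⁻¹ = Real.exp (-Real.log M) := by rw [Real.exp_neg, Real.exp_log hM0]
    rw [h5, ← Real.exp_add, ← Real.le_log_iff_exp_le hAB]
    linarith [hcon.1]
  · have h5 : M = Real.exp (Real.log M) := (Real.exp_log hM0).symm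
    have h6 : A n / B n ≤ Real.exp (Real.log M) * Real.exp (((r' : ℝ) - r) * Real.log P - a * Real.log (Real.log x)) := by
      rw [← Real.exp_add, ← Real.log_le_iff_le_exp hAB]
      linarith [hcon.2]
    rw [Real.exp_log hM0] at h6
    exact h6

end Pool.Agent.Results.MP_ad1693_nt.LikelihoodRatio
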