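import Pool.Agent.Q195.CR.Main
import Pool.Agent.TH270.MS.GrowthF

/-!
# A one-sided criterion in very short windows for the original conjecture of Birch and Swinnerton-Dyer

`E : y² = x³ + a x + b` is an elliptic curve over `ℚ`, `a, b ∈ ℤ`, `N_p` is the number of points modulo
`p` (with the point at infinity), `a_p = p + 1 - N_p` and `P(x) = ∏_{p ≤ x, p ∤ 2Δ} N_p / p`.  `F` is the entire
continuation of the incomplete `L`-series `∏_{p ∤ 2Δ} (1 - a_p p^{-s} + p^{1-2s})⁻¹` and `r = ord_{s=1} F`;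
`f` is the newform of `E`.

The following are equivalent.

* (1) The original conjecture: `P(x) ∼ C (log x)^r` with a constant `C ≠ 0`.
* (2) For all `λ > 1` and `ε > 0`: `|∑_{x < p ≤ y} a_p| ≤ ε x` for all large `x` and all `y ∈ [x, λ x]`.
* (3) For all `K, ε > 0`: `∑_{x < p ≤ y} a_p ≥ - ε x` for all large `x` and all `y ∈ [x, x + K x / (log x)²]`.

So it suffices to exclude, in the windows `[x, x + K x / (log x)²]`, that the `a_p` are too negative: no upper
estimate, no hypothesis on the zeros of `F`, and no sum over all the primes up to `x` is needed in (3).  If `F` has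
no REAL zeros `s > 1`, the opposite one-sided condition (for all `K, ε > 0`: `∑_{x < p ≤ y} a_p ≤ ε x` for all large
`x` and all `y ∈ [x, x + K x / (log x)²]`) is equivalent as well.

Proof of (3) ⟹ (1).  Put `φ(t) = log P(e^t)`.  Partial summation shows `φ(u) ≤ φ(t) + o(1)` for
`t ≤ u ≤ t + K / t²`, so `φ(t) = O(t³)` from above.  By a theorem of Landau type (a zero with `Re s > 1 + c` makes
`log P(x) > x^c` for some `x` in every window `[X^(1-δ), X]`; starting files, `Pool.Agent.TH949.TX`) all zeros have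
`Re s ≤ 1`.  Then the function `β(u) = e^{-u} ψ_E(e^u)` satisfies `∫_T^{T+1} β² = O(1)`, Cramér's bound; it is
proved here (`Pool.Agent.Q195.CR.cramer`) for all Dirichlet series of this kind by means of a kernel with compactly
supported Fourier transform, which removes the simple poles of the Laplace transform, and the theorem of Paley and
Wiener (starting files, `Pool.Agent.TH270.MS`).  It follows that `φ(t) - r log t - log C = β(t) / t + o(1)`, and
every interval `[t, t + K / t²]` contains a point at which `|β(t) / t|` is small if `K` is large.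
-/

set_option autoImplicit false

namespace Pool.Agent.Results.MP_ad1693_nt.ShortWindowCriterion

open Filter Topology Classical CongruenceSubgroup UpperHalfPlane
open scoped MatrixGroups

/-- `N_p`: the number of points of `y² = x³ + a x + b` modulo `p`, with the point at infinity. -/
noncomputable def numPoints (a b : ℤ) (p : ℕ) : ℕ :=
  Nat.card {q : ZMod p × ZMod p // q.2 ^ 2 = q.1 ^ 3 + (a : ZMod p) * q.1 + (b : ZMod p)} + 1

/-- `p` is a prime that does not divide `2 Δ`, where `Δ = -4 a³ - 27 b²`. -/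
def Good (a b : ℤ) (p : ℕ) : Prop :=
  p.Prime ∧ ¬ ((p : ℤ) ∣ 2 * (-4 * a ^ 3 - 27 * b ^ 2))

/-- The original Birch and Swinnerton-Dyer product `P(x) = ∏_{p ≤ x, p ∤ 2Δ} N_p / p`. -/
noncomputable def P (a b : ℤ) (x : ℝ) : ℝ :=
  ∏ p ∈ (Finset.range (⌊x⌋₊ + 1)).filter (Good a b), ((numPoints a b p : ℝ) / p)

/-- `∑_{x < p ≤ y, p ∤ 2Δ} a_p`, `a_p = p + 1 - N_p` -/
noncomputable def S (a b : ℤ) (x y : ℝ) : ℝ :=
  ∑ p ∈ (Finset.Ioc ⌊x⌋₊ ⌊y⌋₊).filter (Good a b), ((p : ℝ) + 1 - numPoints a b p)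

/-- `F` is an entire function which for `Re s > 3/2` is the incomplete `L`-series
`∏_{p ∤ 2Δ} (1 - a_p p^{-s} + p^{1-2s})⁻¹`, `a_p = p + 1 - N_p`, of `y² = x³ + a x + b`. -/
def IsLSeries (a b : ℤ) (F : ℂ → ℂ) : Prop :=
  Differentiable ℂ F ∧ ∀ s : ℂ, (3 : ℝ) / 2 < s.re →
    HasProd (fun p : ℕ => if Good a b p then
      (1 - ((p : ℂ) + 1 - (numPoints a b p : ℂ)) * (p : ℂ) ^ (-s) + (p : ℂ) ^ (1 - 2 * s))⁻¹ else 1)
      (F s)

/-- The `n`-th Fourier coefficient of `f`. -/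
noncomputable def coef {N : ℕ} (f : CuspForm (Gamma0 N : Subgroup (GL (Fin 2) ℝ)) 2) (n : ℕ) : ℂ :=
  (qExpansion 1 f).coeff n

/-- `f ∈ S_2(Γ₀(N))` is the newform of the elliptic curve `E : y² = x³ + a x + b` of conductor `N`: the
Fourier coefficients `c(n)` of `f` are real with `c(1) = 1`, they satisfy the Hecke relations
`c(mn) = c(m) c(n)` for coprime `m`, `n` and `c(p^(j+2)) = c(p) c(p^(j+1)) - p c(p^j)` (without the last
term if `p ∣ N`), `c(p) = a_p = p + 1 - N_p` for all primes `p ∤ 2Δ`, `|c(p)| ≤ 2 √p` for all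
`p ∤ N` (Hasse) and `c(p) = 0, 1, -1` for `p ∣ N`. -/
structure IsNewformOf (a b : ℤ) (N : ℕ) (f : CuspForm (Gamma0 N : Subgroup (GL (Fin 2) ℝ)) 2) :
    Prop where
  one : coef f 1 = 1
  real : ∀ n, (coef f n).im = 0
  mul : ∀ m n : ℕ, Nat.Coprime m n → coef f (m * n) = coef f m * coef f n
  pow : ∀ p j : ℕ, p.Prime → coef f (p ^ (j + 2)) = coef f p * coef f (p ^ (j + 1)) -
      (if p ∣ N then 0 else (p : ℂ) * coef f (p ^ j))
  points : ∀ p : ℕ, Good a b p → coef f p = (p : ℂ) + 1 - (numPoints a b p : ℂ)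
  good : ∀ p : ℕ, p.Prime → ¬ p ∣ N → ‖coef f p‖ ≤ 2 * Real.sqrt p
  bad : ∀ p : ℕ, p.Prime → p ∣ N → coef f p = 0 ∨ coef f p = 1 ∨ coef f p = -1

/-- The original conjecture for the exponent `r`: `P(x) ∼ C (log x)^r` with a constant `C ≠ 0`. -/
def Asymptotic (a b : ℤ) (r : ℕ) : Prop :=
  ∃ C : ℝ, C ≠ 0 ∧ Tendsto (fun x => P a b x / Real.log x ^ r) atTop (𝓝 C)

/-! ### Translation to the definitions of the imported files -/

variable {a b : ℤ}

theorem P_eq (x : ℝ) : P a b x = Pool.Agent.W263.BSD.bsdProduct a b x := by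
  unfold P Pool.Agent.W263.BSD.bsdProduct numPoints Pool.Agent.W263.BSD.pointCount
  refine Finset.prod_congr rfl fun p _ => ?_
  push_cast
  rfl

theorem S_eq (x y : ℝ) : S a b x y = Pool.Agent.Q195.OSC.inc a b ⌊x⌋₊ ⌊y⌋₊ := by
  unfold S Pool.Agent.Q195.OSC.inc Pool.Agent.Q195.OSC.ap numPoints Pool.Agent.W263.BSD.pointCount
  refine Finset.sum_congr rfl fun p _ => ?_
  push_cast
  ring

theorem numPoints_sub (p : ℕ) : (p : ℂ) + 1 - (numPoints a b p : ℂ) =
    (p : ℂ) - (Pool.Agent.W263.BSD.pointCount a b p : ℂ) := by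
  unfold numPoints Pool.Agent.W263.BSD.pointCount
  push_cast
  ring

theorem isLSeries {F : ℂ → ℂ} (hF : IsLSeries a b F) :
    Pool.Agent.W263.BSD.IsLSeries a b F := by
  refine ⟨hF.1, fun s hs => ?_⟩
  have h := hF.2 s hs
  simp only [numPoints_sub] at h
  exact h

theorem hecke {N : ℕ} {f : CuspForm (Gamma0 N : Subgroup (GL (Fin 2) ℝ)) 2}
    (hf : IsNewformOf a b N f) : Pool.Agent.TH941.Hecke f where
  one := hf.one
  real := hf.real
  mul := hf.mul
  pow := hf.pow
  good := hf.good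
  bad := fun p hp h => by
    rcases hf.bad p hp h with h1 | h1 | h1
    · have h2 : ‖coef f p‖ ≤ 1 := by rw [h1]; simp
      exact h2
    · have h2 : ‖coef f p‖ ≤ 1 := by rw [h1]; simp
      exact h2
    · have h2 : ‖coef f p‖ ≤ 1 := by rw [h1]; simp
      exact h2

/-- **The one-sided criterion in very short windows for the original conjecture of Birch and
Swinnerton-Dyer.** -/
theorem result (a b : ℤ) (hΔ : 4 * a ^ 3 + 27 * b ^ 2 ≠ 0) (F : ℂ → ℂ) (hF : IsLSeries a b F)
    (N : ℕ) [NeZero N] (f : CuspForm (Gamma0 N : Subgroup (GL (Fin 2) ℝ)) 2)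
    (hf : IsNewformOf a b N f) :
    ∃ r : ℕ, analyticOrderAt F 1 = r ∧
      List.TFAE [
        Asymptotic a b r,
        ∀ ε lam : ℝ, 0 < ε → 1 < lam → ∀ᶠ x : ℝ in atTop, ∀ y : ℝ, x ≤ y → y ≤ lam * x →
          |S a b x y| ≤ ε * x,
        ∀ ε K : ℝ, 0 < ε → 0 < K → ∀ᶠ x : ℝ in atTop, ∀ y : ℝ,
          x ≤ y → y ≤ x + K * x / (Real.log x) ^ 2 → -(ε * x) ≤ S a b x y] ∧
      ((∀ s : ℝ, 1 < s → F s ≠ 0) → (Asymptotic a b r ↔
        ∀ ε K : ℝ, 0 < ε → 0 < K → ∀ᶠ x : ℝ in atTop, ∀ y : ℝ,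
          x ≤ y → y ≤ x + K * x / (Real.log x) ^ 2 → S a b x y ≤ ε * x)) := by
  have hF' := isLSeries hF
  obtain ⟨r, hr⟩ := Pool.Agent.W263.BSD.order_finite hF'
  have hpts : ∀ p : ℕ, Good a b p → coef f p = (p : ℂ) - (Pool.Agent.W263.BSD.pointCount a b p : ℂ) :=
    fun p hp => (hf.points p hp).trans (numPoints_sub p)
  have hrs := (hecke hf).rsSum_tendsto hΔ hpts
  obtain ⟨C₀, κ, hg⟩ := Pool.Agent.TH270.MS.EQ.growth_F hΔ hF' (hecke hf) hpts
  have hA : Asymptotic a b r ↔ ∃ C : ℝ, C ≠ 0 ∧ Tendsto (fun x =>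
      Pool.Agent.W263.BSD.bsdProduct a b x / Real.log x ^ r) atTop (𝓝 C) := by
    unfold Asymptotic
    simp only [P_eq]
  have h12 : Asymptotic a b r → ∀ ε lam : ℝ, 0 < ε → 1 < lam → ∀ᶠ x : ℝ in atTop, ∀ y : ℝ,
      x ≤ y → y ≤ lam * x → |S a b x y| ≤ ε * x := by
    intro h ε lam hε hlam
    obtain ⟨C, hC, h1⟩ := hA.1 h
    have hC0 : 0 < C := by
      refine lt_of_le_of_ne (ge_of_tendsto h1 ?_) (Ne.symm hC)
      filter_upwards [eventually_gt_atTop 1] with x hx
      have h2 : 0 < Real.log x := Real.log_pos hx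
      have h3 := Pool.Agent.W263.BSD.bsdProduct_pos (a := a) (b := b) x
      positivity
    simp only [S_eq]
    exact Pool.Agent.Q195.OSC.small_of_lim hC0 h1 hε hlam
  -- the short windows are contained in the long windows
  have hshort : Asymptotic a b r → ∀ ε K : ℝ, 0 < ε → 0 < K → ∀ᶠ x : ℝ in atTop, ∀ y : ℝ,
      x ≤ y → y ≤ x + K * x / (Real.log x) ^ 2 → |S a b x y| ≤ ε * x := by
    intro h ε K hε hK
    filter_upwards [h12 h ε 2 hε (by norm_num),
      eventually_ge_atTop (Real.exp (2 * (K / 2) + 2))] with x h1 h2 y hy1 hy2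
    refine h1 y hy1 (Pool.Agent.Q195.CR.win_le (half_pos hK) h2 ?_)
    rwa [show 2 * (K / 2) = K by ring]
  refine ⟨r, hr, ?_, fun hreal => ⟨fun h ε K hε hK => ?_, fun h => ?_⟩⟩
  · tfae_have 1 → 2 := h12
    tfae_have 2 → 3 := by
      intro h ε K hε hK
      filter_upwards [h ε 2 hε (by norm_num),
        eventually_ge_atTop (Real.exp (2 * (K / 2) + 2))] with x h1 h2 y hy1 hy2
      refine (abs_le.1 (h1 y hy1 (Pool.Agent.Q195.CR.win_le (half_pos hK) h2 ?_))).1
      rwa [show 2 * (K / 2) = K by ring]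
    tfae_have 3 → 1 := by
      intro h
      simp only [S_eq] at h
      exact hA.2 (Pool.Agent.Q195.CR.lim_of_low3 hΔ hF' hrs (by norm_num) hg hr h)
    tfae_finish
  · exact (hshort h ε K hε hK).mono fun x hx y hy1 hy2 => (abs_le.1 (hx y hy1 hy2)).2
  · simp only [S_eq] at h
    exact hA.2 (Pool.Agent.Q195.CR.lim_of_up3 hΔ hF' hreal hrs (by norm_num) hg hr h)

end Pool.Agent.Results.MP_ad1693_nt.ShortWindowCriterion
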