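import Pool.Agent.Q282.MN.NF

/-!
# The law of the sums of the traces of Frobenius attached to the product of Birch and Swinnerton-Dyer

For an elliptic curve `E` over `ℚ` the limit of `(log X)⁻¹ ∑_{p ≤ X} a_p log p / p` for `X → ∞`, if it exists, is `- r + 1 / 2`, and
then the asymptotic formula of Birch and Swinnerton-Dyer for the product of the numbers `N_p / p` holds for `E`. Such sums are also
used in practice for the search of curves of large rank (Mestre, Nagao).

Here `K` is any number field and the sums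
`S_t(X, Y) = (log X)⁻¹ ∑_{q_v ≤ Y} a_v log q_v / q_v` over the primes `v` of `K` which do not divide twice the discriminant are
considered for the curves `E_t : y ^ 2 = x ^ 3 + b x ^ 2 + c x + d` with `r = 0, 1, 2` marked independent integral points over the
ring of integers `𝓞` of `K`:

* `r = 0`: all `b, c, d` in `𝓞`;
* `r = 1`: all curves with an integral point `(x₁, y₁)`: `x ^ 3 + b x ^ 2 + c x + d = (x - x₁) (x ^ 2 + u x + v) + y₁ ^ 2`;
* `r = 2`: all curves with three integral points on a line `y = l x + m`: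
  `x ^ 3 + b x ^ 2 + c x + d = (x - x₁) (x - x₂) (x - x₃) + (l x + m) ^ 2`.

The coordinates of the parameters `t` in a `ℤ`-basis of `𝓞` are taken at random in any box with sides at least `X ^ k`, where
`k → ∞` with `X` as slowly as one likes. Then the process `s ↦ - √2 (S_t(X, X ^ √s) + r √s)`, `0 < s ≤ 1`, converges to the Brownian
motion in the sense of the finite-dimensional distributions. For `s = 1`: the sums `S_t(X, X)` do not tend to `- r + 1 / 2` in this
range, but they have a limit law, which is the normal law with mean `- r` and variance `1 / 2`. The convergence is uniform in the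
box and in the basis, and the curves are elliptic curves with at least `r` independent `K`-rational points.

Proof. The mean of `- a_v / q_v` over the family modulo `v` is `r / q_v + O (q_v ^ (-3 / 2))` and the mean square is
`1 / q_v + O (q_v ^ (-3 / 2))`, and the values at different primes over the same rational prime are independent. With
`∑_{p ≤ X} ν(p) log p / p = log X + O(1)`, `ν(p)` the number of the primes of degree one over `p` (a consequence of Chebyshev's
estimates and the class number formula, starting files), the means of the sums tend to those of the Brownian motion, and so do the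
covariances. The characteristic functions are compared with those of independent variables by a Taylor polynomial of large degree,
the chinese remainder theorem and exponential moments; the theorem of Lévy on characteristic functions is in Mathlib. The rank is
at least `r` outside a small set by a sieve.
-/

set_option autoImplicit false

namespace Pool.Agent.Results.MP_ad1693_nt.SumsOfTraces

open Finset NumberField IsDedekindDomain
open scoped NNReal

/-- The coefficients `(b, c, d)` of the cubic polynomials `x ^ 3 + b x ^ 2 + c x + d` of the families: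
all polynomials (`r = 0`), `(x - t 0) (x ^ 2 + t 2 x + t 3) + (t 1) ^ 2` (`r = 1`), and
`(x - t 0) (x - t 1) (x - t 2) + (t 3 x + t 4) ^ 2` (`r = 2`). -/
def family {R : Type} [CommRing R] : (r : ℕ) → (Fin (r + 3) → R) → R × R × R
  | 0, t => (t 0, t 1, t 2)
  | 1, t => (t 2 - t 0, t 3 - t 0 * t 2, t 1 ^ 2 - t 0 * t 3)
  | _ + 2, t => (t 3 ^ 2 - (t 0 + t 1 + t 2), t 0 * t 1 + t 0 * t 2 + t 1 * t 2 + 2 * t 3 * t 4, t 4 ^ 2 - t 0 * t 1 * t 2)

/-- The discriminant of `x ^ 3 + b x ^ 2 + c x + d`. -/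
def disc {R : Type} [CommRing R] (C : R × R × R) : R :=
  C.1 ^ 2 * C.2.1 ^ 2 - 4 * C.2.1 ^ 3 - 4 * C.1 ^ 3 * C.2.2 + 18 * C.1 * C.2.1 * C.2.2 - 27 * C.2.2 ^ 2

section

variable {K : Type} [Field K] [NumberField K]

/-- The number of the solutions of `y ^ 2 = x ^ 3 + b x ^ 2 + c x + d` in the residue field of the prime `v` of `K`,
where `C = (b, c, d)` has entries in the ring of integers of `K`. -/
noncomputable def points (C : 𝓞 K × 𝓞 K × 𝓞 K) (v : HeightOneSpectrum (𝓞 K)) : ℕ :=
  Nat.card {P : (𝓞 K ⧸ v.asIdeal) × (𝓞 K ⧸ v.asIdeal) //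
    P.2 ^ 2 = P.1 ^ 3 + (Ideal.Quotient.mk v.asIdeal) C.1 * P.1 ^ 2 + (Ideal.Quotient.mk v.asIdeal) C.2.1 * P.1 +
      (Ideal.Quotient.mk v.asIdeal) C.2.2}

/-- `v` does not divide twice the discriminant. -/
def Good (C : 𝓞 K × 𝓞 K × 𝓞 K) (v : HeightOneSpectrum (𝓞 K)) : Prop := 2 * disc C ∉ v.asIdeal

/-- `a_v = q_v + 1 - #E(k_v)`; here `q_v = #k_v` and `#E(k_v)` is `points C v + 1`. -/
noncomputable def trace (C : 𝓞 K × 𝓞 K × 𝓞 K) (v : HeightOneSpectrum (𝓞 K)) : ℝ :=
  (Ideal.absNorm v.asIdeal : ℝ) + 1 - ((points C v : ℝ) + 1)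

/-- `S(X, Y) = (log X)⁻¹ ∑ a_v log q_v / q_v`, the sum over all primes `v` of `K` not dividing twice the discriminant with
`q_v ≤ Y`. -/
noncomputable def average (C : 𝓞 K × 𝓞 K × 𝓞 K) (X : ℕ) (Y : ℝ) : ℝ :=
  (∑ᶠ v ∈ {v : HeightOneSpectrum (𝓞 K) | Good C v ∧ (Ideal.absNorm v.asIdeal : ℝ) ≤ Y},
    trace C v * Real.log (Ideal.absNorm v.asIdeal) / Ideal.absNorm v.asIdeal) / Real.log X

/-- The curve `y ^ 2 = x ^ 3 + b x ^ 2 + c x + d` over `K`, where `C = (b, c, d)`. -/
def curve (C : 𝓞 K × 𝓞 K × 𝓞 K) : WeierstrassCurve K :=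
  { a₁ := 0, a₂ := (C.1 : K), a₃ := 0, a₄ := (C.2.1 : K), a₆ := (C.2.2 : K) }

/-- `- √2 (S_t(X, X ^ √s) + r √s)` -/
noncomputable def deviation (r : ℕ) (t : Fin (r + 3) → 𝓞 K) (X : ℕ) (s : ℝ) : ℝ :=
  -(Real.sqrt 2 * (average (family r t) X ((X : ℝ) ^ Real.sqrt s) + r * Real.sqrt s))

open Classical in
/-- `E_t` is an elliptic curve over `K` with at least `r` independent `K`-rational points. -/
def Rank (r : ℕ) (t : Fin (r + 3) → 𝓞 K) : Prop :=
  (curve (family r t)).IsElliptic ∧ (r : Cardinal) ≤ Module.rank ℤ (curve (family r t)).toAffine.Point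

end

/-- The box of the integers `n i j` with `N i j ≤ n i j < N i j + L i j` for all `i`, `j`. -/
noncomputable def box {m d : ℕ} (N : Fin m → Fin d → ℤ) (L : Fin m → Fin d → ℕ) : Finset (Fin m → Fin d → ℤ) :=
  Fintype.piFinset fun i => Fintype.piFinset fun j => Ico (N i j) (N i j + L i j)

/-- The elements `t i = ∑ n i j b j` with the coordinates `n i j`. -/
def combine {O : Type} [CommRing O] {m d : ℕ} (b : Fin d → O) (n : Fin m → Fin d → ℤ) : Fin m → O :=
  fun i => ∑ j, (n i j : O) * b j

/-- The distribution function of the Brownian motion `B` at the times `s ∈ I`: the probability that `B_s ≤ x_s` for all `s ∈ I`. -/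
noncomputable def brownian (I : Finset ℝ≥0) (x : I → ℝ) : ℝ :=
  (ProbabilityTheory.BrownianReal.projectiveFamily I (Set.Iic x)).toReal

open Classical in
/-- The proportion of the `n` of the box with the property `P`. -/
noncomputable def proportion {m d : ℕ} (N : Fin m → Fin d → ℤ) (L : Fin m → Fin d → ℕ) (P : (Fin m → Fin d → ℤ) → Prop) : ℝ :=
  (((box N L).filter P).card : ℝ) / ∏ i, ∏ j, (L i j : ℝ)

/-! ### Proofs -/

lemma family_eq {R : Type} [CommRing R] (r : ℕ) (t : Fin (r + 3) → R) : family r t = Q282.NF.family r t := by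
  match r, t with
  | 0, t => rfl
  | 1, t => rfl
  | r + 2, t => rfl

lemma proportion_eq {m d : ℕ} (N : Fin m → Fin d → ℤ) (L : Fin m → Fin d → ℕ) (P : (Fin m → Fin d → ℤ) → Prop) [DecidablePred P] :
    proportion N L P = (((box N L).filter P).card : ℝ) / ∏ i, ∏ j, (L i j : ℝ) := by
  classical
  unfold proportion
  congr 2
  refine congrArg Finset.card ?_
  ext t
  simp only [mem_filter]

lemma average_eq {K : Type} [Field K] [NumberField K] (C : 𝓞 K × 𝓞 K × 𝓞 K) (X : ℕ) (s : ℝ) (hX : 1 ≤ X) (hs : s ≤ 1) :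
    -(Real.sqrt 2 * average C X ((X : ℝ) ^ Real.sqrt s)) =
      ∑ v ∈ Q282.GK.SX K X, Q282.MN.cw X s (Ideal.absNorm v.asIdeal) * Q282.MN.lv v C := by
  classical
  have hX0 : (0 : ℝ) ≤ (X : ℝ) ^ Real.sqrt s := by positivity
  have h1 : {v : HeightOneSpectrum (𝓞 K) | Good C v ∧ (Ideal.absNorm v.asIdeal : ℝ) ≤ (X : ℝ) ^ Real.sqrt s} =
      (((Q282.GK.SX K X).filter fun v => Good C v ∧ Ideal.absNorm v.asIdeal ≤ Q282.MN.tx X s : Finset (HeightOneSpectrum (𝓞 K))) :
        Set (HeightOneSpectrum (𝓞 K))) := by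
    ext v
    rw [Set.mem_ofPred_eq, mem_coe, mem_filter, Q282.GK.mem_SX]
    unfold Q282.MN.tx
    rw [Nat.le_floor_iff hX0]
    constructor
    · rintro ⟨h1, h2⟩
      refine ⟨?_, h1, h2⟩
      have h3 := Q282.MN.tx_le hX hs
      unfold Q282.MN.tx at h3
      exact ((Nat.le_floor_iff hX0).2 h2).trans h3
    · rintro ⟨_, h1, h2⟩
      exact ⟨h1, h2⟩
  unfold average
  rw [h1, finsum_mem_coe_finset, sum_filter, sum_div, mul_sum, ← sum_neg_distrib]
  refine sum_congr rfl fun v _ => ?_
  unfold Q282.MN.cw Q282.MN.lv trace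
  have h2 : Good C v ↔ Q282.NF.Good C v := Iff.rfl
  by_cases h3 : Good C v
  · by_cases h4 : Ideal.absNorm v.asIdeal ≤ Q282.MN.tx X s
    · rw [if_pos ⟨h3, h4⟩, if_pos h4, if_pos (h2.1 h3)]
      have h5 : Q282.NF.points C v = points C v := rfl
      rw [h5]
      ring
    · rw [if_neg fun h => h4 h.2, if_neg h4]
      ring
  · rw [if_neg fun h => h3 h.1, if_neg fun h => h3 (h2.2 h)]
    ring

open Classical in
/-- Let `K` be a number field, `r = 0, 1, 2`, let `I` be a finite set of times `s` with `0 < s ≤ 1`, let `x_s`, `s ∈ I`, be real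
numbers, and `ε > 0`. There is an `X₁` with the following property. Let `X ≥ X₁` be an integer, let `b` be a basis of the ring of
integers of `K` over `ℤ`, and let a box `N i j ≤ n i j < N i j + L i j` of coordinates be given all sides `L i j` of which are at
least `X ^ X₁`. Then the proportion of the `n` of the box for which, with the parameters `t i = ∑ n i j b j` and
`(b, c, d) = family r t`, the curve `E_t : y ^ 2 = x ^ 3 + b x ^ 2 + c x + d` is an elliptic curve over `K`, its group of
`K`-rational points has rank at least `r`, and `- √2 (S_t(X, X ^ √s) + r √s) ≤ x_s` for all `s ∈ I`, differs by at most `ε` from the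
probability that the Brownian motion `B` satisfies `B_s ≤ x_s` for all `s ∈ I`; here
`S_t(X, Y) = (log X)⁻¹ ∑_{q_v ≤ Y} a_v log q_v / q_v`, the sum over the primes `v` of `K` not dividing twice the discriminant. -/
theorem result (K : Type) [Field K] [NumberField K] (r : ℕ) (hr : r ≤ 2) (I : Finset ℝ≥0) (hI : ∀ s ∈ I, 0 < s ∧ s ≤ 1)
    (x : I → ℝ) (ε : ℝ) (hε : 0 < ε) :
    ∃ X₁ : ℕ, ∀ X : ℕ, X₁ ≤ X → ∀ (b : Module.Basis (Fin (Module.finrank ℚ K)) ℤ (𝓞 K))
      (N : Fin (r + 3) → Fin (Module.finrank ℚ K) → ℤ) (L : Fin (r + 3) → Fin (Module.finrank ℚ K) → ℕ),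
      (∀ i j, X ^ X₁ ≤ L i j) →
      |proportion N L (fun n => Rank r (combine b n) ∧ ∀ s : I, deviation r (combine b n) X (s : ℝ≥0) ≤ x s) - brownian I x| ≤ ε := by
  obtain ⟨X₁, h⟩ := Q282.MN.mn_law K (Fin (r + 3)) 5 r 100 (by norm_num) I hI x (ε / 2) (by positivity)
  obtain ⟨C, hC, hrank⟩ := Q282.NF.rank_nf K r hr 1 zero_lt_one
  obtain ⟨X₂, hX₂⟩ := Filter.eventually_atTop.1 (Q282.BP.loglog_tendsto.eventually_ge_atTop (2 * C / ε + 1))
  refine ⟨max 16 (max X₁ X₂), fun X hX b N L hL => ?_⟩
  have hX16 : 16 ≤ X := (le_max_left _ _).trans hX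
  have hX1 : X₁ ≤ X := (le_max_left _ _).trans ((le_max_right _ _).trans hX)
  have hll := hX₂ X ((le_max_right _ _).trans ((le_max_right _ _).trans hX))
  have hX0 : (16 : ℝ) ≤ X := by exact_mod_cast hX16
  have hL' : ∀ i j, (X : ℝ) ^ (max 16 (max X₁ X₂)) ≤ L i j := fun i j => by exact_mod_cast hL i j
  have hLX : ∀ i j, (X : ℝ) ≤ L i j := fun i j => by
    refine le_trans ?_ (hL' i j)
    calc (X : ℝ) = (X : ℝ) ^ 1 := (pow_one _).symm
      _ ≤ _ := pow_le_pow_right₀ (by linarith) ((by norm_num : 1 ≤ 16).trans (le_max_left _ _))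
  have hb : ∀ x : 𝓞 K, ∃ a : Fin (Module.finrank ℚ K) → ℤ, x = ∑ j, (a j : 𝓞 K) * b j := by
    intro x
    refine ⟨fun j => b.repr x j, ?_⟩
    have h1 := b.sum_repr x
    rw [← h1]
    refine sum_congr rfl fun j _ => ?_
    rw [h1, zsmul_eq_mul]
  have hP0 : 0 < ∏ i, ∏ j, (L i j : ℝ) := prod_pos fun i _ => prod_pos fun j _ => by linarith [hLX i j]
  -- the law
  obtain ⟨E, hE⟩ : ∃ E : Finset (Fin (r + 3) × Fin (Module.finrank ℚ K) → ℤ), E = (Q282.GK.kbox (fun k => N k.1 k.2) (fun k => L k.1 k.2)).filter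
      (fun n => ∀ s : I, ∑ v ∈ Q282.GK.SX K X, Q282.MN.cw X (s : ℝ≥0) (Ideal.absNorm v.asIdeal) *
        Q282.MN.lv v (Q282.NF.family r (Q282.GK.comb (fun j => b j) n)) - Real.sqrt 2 * r * Real.sqrt (s : ℝ≥0) ≤ x s) := ⟨_, rfl⟩
  have h1 := h X hX1 (fun j => b j) hb (fun k => N k.1 k.2) (fun k => L k.1 k.2) (fun k => by
    refine le_trans ?_ (hL' k.1 k.2)
    exact pow_le_pow_right₀ (by linarith) ((le_max_left _ _).trans (le_max_right _ _)))
    (fun v t => Q282.MN.lv v (Q282.NF.family r t)) (Q282.MN.loc2_nf K r hr) E (fun n => by rw [hE, mem_filter])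
  have hEc : E.card = ((box N L).filter fun n => ∀ s : I, deviation r (combine b n) X (s : ℝ≥0) ≤ x s).card := by
    refine card_bij' (fun n _ => fun i j => n (i, j)) (fun n _ => fun k => n k.1 k.2) ?_ ?_ (fun _ _ => rfl) (fun _ _ => rfl)
    · intro n hn
      rw [hE, mem_filter] at hn
      rw [mem_filter]
      refine ⟨?_, fun s => ?_⟩
      · have h2 := hn.1
        unfold Q282.GK.kbox at h2
        unfold box
        rw [Fintype.mem_piFinset] at h2 ⊢
        intro i
        rw [Fintype.mem_piFinset]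
        exact fun j => h2 (i, j)
      · have h2 := hn.2 s
        rw [← average_eq _ X _ (by omega) (by exact_mod_cast (hI s s.2).2)] at h2
        unfold deviation
        rw [family_eq]
        refine le_trans (le_of_eq ?_) h2
        have e : combine (fun j => b j) (fun i j => n (i, j)) = Q282.GK.comb (fun j => b j) n := rfl
        rw [e]
        ring
    · intro n hn
      rw [mem_filter] at hn
      rw [hE, mem_filter]
      refine ⟨?_, fun s => ?_⟩
      · have h2 := hn.1
        unfold box at h2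
        unfold Q282.GK.kbox
        rw [Fintype.mem_piFinset] at h2 ⊢
        rintro ⟨i, j⟩
        have h3 := h2 i
        rw [Fintype.mem_piFinset] at h3
        exact h3 j
      · have h2 := hn.2 s
        rw [← average_eq _ X _ (by omega) (by exact_mod_cast (hI s s.2).2)]
        unfold deviation at h2
        rw [family_eq] at h2
        refine le_trans (le_of_eq ?_) h2
        have e : combine (fun j => b j) n = Q282.GK.comb (fun j => b j) (fun k => n k.1 k.2) := rfl
        rw [e]
        ring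
  have hPe : ∏ k : Fin (r + 3) × Fin (Module.finrank ℚ K), (L k.1 k.2 : ℝ) = ∏ i, ∏ j, (L i j : ℝ) :=
    Fintype.prod_prod_type _
  rw [hPe, hEc] at h1
  obtain ⟨A, hA⟩ : ∃ A : Finset (Fin (r + 3) → Fin (Module.finrank ℚ K) → ℤ), A = (box N L).filter
    (fun n => ∀ s : I, deviation r (combine b n) X (s : ℝ≥0) ≤ x s) := ⟨_, rfl⟩
  obtain ⟨A', hA'⟩ : ∃ A' : Finset (Fin (r + 3) → Fin (Module.finrank ℚ K) → ℤ), A' = (box N L).filter
    (fun n => Rank r (combine b n) ∧ ∀ s : I, deviation r (combine b n) X (s : ℝ≥0) ≤ x s) := ⟨_, rfl⟩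
  rw [← hA] at h1
  have h1' : |(A.card : ℝ) / ∏ i, ∏ j, (L i j : ℝ) - brownian I x| ≤ ε / 2 := h1
  -- the exceptions
  have h4 := hrank (fun j => b j) hb X X hX16 le_rfl N L hLX ((box N L).filter fun n => ¬ Rank r (combine b n)) (filter_subset _ _)
    (fun n hn hOk => (mem_filter.1 hn).2 (by
      unfold Q282.NF.Ok at hOk
      rw [← family_eq] at hOk
      exact hOk))
  have h5 : (((box N L).filter fun n => ¬ Rank r (combine b n)).card : ℝ) / ∏ i, ∏ j, (L i j : ℝ) ≤ ε / 2 := by
    rw [div_le_iff₀ hP0]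
    refine h4.trans ?_
    have hpos : 0 < Real.log (Real.log X) := by
      have : 0 ≤ 2 * C / ε := by positivity
      linarith
    rw [Real.rpow_neg_one, mul_comm C, mul_assoc, mul_comm (∏ i, ∏ j, (L i j : ℝ))]
    refine mul_le_mul_of_nonneg_right ?_ hP0.le
    rw [← div_eq_mul_inv, div_le_iff₀ hpos]
    have h6 : 2 * C / ε ≤ Real.log (Real.log X) := by linarith
    rw [div_le_iff₀ hε] at h6
    linarith
  have h6 : (A'.card : ℝ) ≤ A.card := by
    have : A' ⊆ A := by
      rw [hA, hA']
      intro t ht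
      rw [mem_filter] at ht ⊢
      exact ⟨ht.1, ht.2.2⟩
    exact_mod_cast card_le_card this
  have h7 : (A.card : ℝ) ≤ A'.card + ((box N L).filter fun n => ¬ Rank r (combine b n)).card := by
    have : A ⊆ A' ∪ (box N L).filter fun n => ¬ Rank r (combine b n) := by
      rw [hA, hA']
      intro t ht
      rw [mem_filter] at ht
      rw [mem_union, mem_filter, mem_filter]
      by_cases hR : Rank r (combine b t)
      · exact Or.inl ⟨ht.1, hR, ht.2⟩
      · exact Or.inr ⟨ht.1, hR⟩
    exact_mod_cast (card_le_card this).trans (card_union_le _ _)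
  have e2 : proportion N L (fun n => Rank r (combine b n) ∧ ∀ s : I, deviation r (combine b n) X (s : ℝ≥0) ≤ x s) =
      (A'.card : ℝ) / ∏ i, ∏ j, (L i j : ℝ) := by
    rw [hA', proportion_eq]
  rw [e2]
  have h8 : (A'.card : ℝ) / ∏ i, ∏ j, (L i j : ℝ) ≤ (A.card : ℝ) / ∏ i, ∏ j, (L i j : ℝ) := div_le_div_of_nonneg_right h6 hP0.le
  have h9 : (A.card : ℝ) / ∏ i, ∏ j, (L i j : ℝ) ≤ (A'.card : ℝ) / ∏ i, ∏ j, (L i j : ℝ) + ε / 2 := by
    have := div_le_div_of_nonneg_right h7 hP0.le
    rw [add_div] at this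
    linarith
  have h10 := abs_le.1 h1'
  rw [abs_le]
  constructor <;> linarith

end Pool.Agent.Results.MP_ad1693_nt.SumsOfTraces
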